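import Pool.Agent.BLP.StmtsD

set_option autoImplicit false

/-!
# Squad BLP, row D_CLO: closeness in probability
-/

namespace Pool.Agent.BLP.H23

open MeasureTheory ProbabilityTheory Filter Topology Finset
open scoped ENNReal

/-- grid points of `[k, k + p]` -/
noncomputable def gr (k : ℤ) (p N i : ℕ) : ℝ := k + (i : ℝ) * p / N

theorem gr_zero (k : ℤ) (p N : ℕ) : gr k p N 0 = k := by simp [gr]

theorem gr_last (k : ℤ) (p N : ℕ) (hN : 1 ≤ N) : gr k p N N = k + p := by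
  unfold gr
  have h : (N : ℝ) ≠ 0 := by
    have : (1 : ℝ) ≤ N := by exact_mod_cast hN
    positivity
  rw [mul_div_assoc, mul_div_left_comm, div_self h, mul_one]

theorem gr_mono (k : ℤ) (p N i j : ℕ) (h : i ≤ j) : gr k p N i ≤ gr k p N j := by
  unfold gr
  have h' : (i : ℝ) ≤ j := by exact_mod_cast h
  have h2 : (i : ℝ) * p / N ≤ (j : ℝ) * p / N := by
    refine div_le_div_of_nonneg_right ?_ (Nat.cast_nonneg N)
    exact mul_le_mul_of_nonneg_right h' (Nat.cast_nonneg p)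
  linarith

theorem gr_mem (k : ℤ) (p N i : ℕ) (hN : 1 ≤ N) (h : i ≤ N) :
    (k : ℝ) ≤ gr k p N i ∧ gr k p N i ≤ k + p := by
  refine ⟨?_, ?_⟩
  · have := gr_mono k p N 0 i (Nat.zero_le i)
    rwa [gr_zero] at this
  · have := gr_mono k p N i N h
    rwa [gr_last k p N hN] at this

theorem gr_step (k : ℤ) (p N i : ℕ) : gr k p N (i + 1) - gr k p N i = p / N := by
  unfold gr
  push_cast
  ring

theorem exists_cell (k : ℤ) (p N : ℕ) (hN : 1 ≤ N) (t : ℝ) (h1 : (k : ℝ) ≤ t)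
    (h2 : t ≤ k + p) : ∃ i < N, gr k p N i ≤ t ∧ t ≤ gr k p N (i + 1) := by
  classical
  have hex : ∃ i : ℕ, t ≤ gr k p N (i + 1) := by
    refine ⟨N - 1, ?_⟩
    rw [Nat.sub_add_cancel hN, gr_last k p N hN]
    exact h2
  refine ⟨Nat.find hex, ?_, ?_, Nat.find_spec hex⟩
  · have h3 : Nat.find hex ≤ N - 1 := by
      refine Nat.find_min' hex ?_
      rw [Nat.sub_add_cancel hN, gr_last k p N hN]
      exact h2
    omega
  · rcases Nat.eq_zero_or_pos (Nat.find hex) with h0 | h0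
    · rw [h0, gr_zero]
      exact h1
    · have h4 := Nat.find_min hex (m := Nat.find hex - 1) (by omega)
      rw [Nat.sub_add_cancel h0] at h4
      exact (not_le.1 h4).le

/-- the deterministic part -/
theorem det_clo (hInc : IncStmt) (b : Env) (β : ℚ → ℤ × ℝ → ℤ × ℝ → ℝ) (hb : Cts b)
    (hM : Mon b β) (m k : ℤ) (p q : ℕ) (ρ d : ℚ) (n N : ℕ) (hN : 1 ≤ N) (hρ : 0 < ρ)
    (hmn : m + q ≤ (n : ℤ)) (hkp : (k : ℝ) + p ≤ n * ρ)
    (h1 : ∀ j ∈ Finset.Ioc m (m + q), ∀ i ∈ Finset.range N,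
      ¬ (d : ℝ) / 4 < (β ρ (j, (k : ℝ)) (j, gr k p N (i + 1)) - β ρ (j, (k : ℝ)) (j, gr k p N i)) -
        (b j (gr k p N (i + 1)) - b j (gr k p N i)))
    (h2 : ∀ j ∈ Finset.Ioc m (m + q), ∀ i ∈ Finset.range (N + 1),
      ¬ (d : ℝ) / 4 ≤ |L b j k n (n * ρ) - L b j (gr k p N i) n (n * ρ) -
        β ρ (j, (k : ℝ)) (j, gr k p N i)|) :
    Clo b β m k p q ρ d n := by
  intro j hj1 hj2 s t hs1 hs2 ht1 ht2
  have hj : j ∈ Finset.Ioc m (m + q) := Finset.mem_Ioc.2 ⟨hj1, hj2⟩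
  have hjn : j ≤ (n : ℤ) := hj2.trans hmn
  obtain ⟨hadd, hlow, -, -⟩ := hM
  obtain ⟨hI, -, -⟩ := hInc b hb j n hjn
  have key : ∀ t : ℝ, (k : ℝ) ≤ t → t ≤ k + p →
      |L b j k n (n * ρ) - L b j t n (n * ρ) - β ρ (j, (k : ℝ)) (j, t)| ≤ d / 2 := by
    intro t ht1 ht2
    obtain ⟨i, hi, ha, ha'⟩ := exists_cell k p N hN t ht1 ht2
    have e1 := h1 j hj i (Finset.mem_range.2 hi)
    have e2 := h2 j hj i (Finset.mem_range.2 (by omega))
    have e3 := h2 j hj (i + 1) (Finset.mem_range.2 (by omega))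
    rw [not_lt] at e1
    rw [not_le, abs_lt] at e2 e3
    have hle : gr k p N (i + 1) ≤ n * ρ := (gr_mem k p N (i + 1) hN (by omega)).2.trans hkp
    have hA := hI (gr k p N i) t (n * ρ) ha (ht2.trans hkp)
    have hB := hI t (gr k p N (i + 1)) (n * ρ) ha' hle
    have hC := hlow ρ hρ j (gr k p N i) t ha
    have hD := hlow ρ hρ j t (gr k p N (i + 1)) ha'
    have hC' := hadd ρ hρ (j, (k : ℝ)) (j, gr k p N i) (j, t)
    have hD' := hadd ρ hρ (j, (k : ℝ)) (j, t) (j, gr k p N (i + 1))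
    rw [abs_le]
    constructor
    · linarith [e2.1, e2.2, e3.1, e3.2]
    · linarith [e2.1, e2.2, e3.1, e3.2]
  have k1 := abs_le.1 (key s hs1 hs2)
  have k2 := abs_le.1 (key t ht1 ht2)
  have hE := hadd ρ hρ (j, (k : ℝ)) (j, s) (j, t)
  rw [abs_le]
  constructor
  · linarith [k1.1, k1.2, k2.1, k2.2]
  · linarith [k1.1, k1.2, k2.1, k2.2]

/-- small sets from almost everywhere eventual non-membership -/
theorem tendsto_of_ae {X : Type} [MeasurableSpace X] (μ : Measure X) [IsFiniteMeasure μ]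
    (S : ℕ → Set X) (hS : ∀ N, NullMeasurableSet (S N) μ)
    (h : ∀ᵐ x ∂μ, ∀ᶠ N in atTop, x ∉ S N) : Tendsto (fun N => μ (S N)) atTop (𝓝 0) := by
  set T : ℕ → Set X := fun N => ⋃ M ≥ N, S M with hT
  have hTm : ∀ N, NullMeasurableSet (T N) μ := fun N =>
    NullMeasurableSet.iUnion fun M => NullMeasurableSet.iUnion fun _ => hS M
  have hanti : Antitone T := by
    intro a c hac x hx
    simp only [hT, Set.mem_iUnion] at hx ⊢
    obtain ⟨M, hM, hx⟩ := hx
    exact ⟨M, hac.trans hM, hx⟩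
  have h1 := tendsto_measure_iInter_atTop (μ := μ) hTm hanti ⟨0, measure_ne_top μ _⟩
  have h2 : μ (⋂ N, T N) = 0 := by
    refine measure_mono_null ?_ (ae_iff.1 h)
    intro x hx
    simp only [Set.mem_ofPred_eq, not_eventually, not_not]
    rw [frequently_atTop]
    intro N
    have h3 := Set.mem_iInter.1 hx N
    simp only [hT, Set.mem_iUnion] at h3
    obtain ⟨M, hM, hx⟩ := h3
    exact ⟨M, hM, hx⟩
  rw [h2] at h1
  refine tendsto_of_tendsto_of_tendsto_of_le_of_le tendsto_const_nhds h1 (fun _ => zero_le) ?_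
  intro N
  refine measure_mono ?_
  intro x hx
  simp only [hT, Set.mem_iUnion]
  exact ⟨N, le_rfl, hx⟩

/-- uniform continuity on the grid -/
theorem unif_grid (F : ℝ → ℝ) (hF : Continuous F) (k : ℤ) (p : ℕ) (ε : ℝ) (hε : 0 < ε) :
    ∀ᶠ N : ℕ in atTop, ∀ i ∈ Finset.range N, F (gr k p N (i + 1)) - F (gr k p N i) ≤ ε := by
  have hu : UniformContinuousOn F (Set.Icc (k : ℝ) (k + p)) :=
    isCompact_Icc.uniformContinuousOn_of_continuous hF.continuousOn
  rw [Metric.uniformContinuousOn_iff] at hu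
  obtain ⟨δ, hδ, hu⟩ := hu ε hε
  have ht : Tendsto (fun N : ℕ => (p : ℝ) / N) atTop (𝓝 0) := tendsto_const_div_atTop_nhds_zero_nat _
  filter_upwards [ht.eventually (gt_mem_nhds hδ), eventually_ge_atTop 1] with N hN hN1 i hi
  have hi' := Finset.mem_range.1 hi
  have h1 := gr_mem k p N (i + 1) hN1 (by omega)
  have h2 := gr_mem k p N i hN1 (by omega)
  have h3 := hu (gr k p N (i + 1)) ⟨h1.1, h1.2⟩ (gr k p N i) ⟨h2.1, h2.2⟩ (by
    rw [Real.dist_eq, gr_step, abs_of_nonneg (by positivity)]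
    exact hN)
  rw [Real.dist_eq] at h3
  exact (le_abs_self _).trans h3.le

theorem d_clo : CloStmt := by
  intro hInc X _ μ B β hSp hL hIn hae m k p q ρ d hρ hd
  have := hSp.prob
  have hd' : (0 : ℝ) < (d : ℝ) / 4 := by
    have : (0 : ℝ) < d := by exact_mod_cast hd
    positivity
  -- the Busemann functions are almost everywhere measurable
  have hβm : ∀ y z : ℤ × ℝ, AEMeasurable (β ρ y z) μ := fun y z =>
    TendstoInMeasure.aemeasurable (f := fun (n : ℕ) (x : X) =>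
      L (B x) y.1 y.2 n (n * ρ) - L (B x) z.1 z.2 n (n * ρ))
      (fun n => ((hL y.1 y.2 n (n * ρ)).sub (hL z.1 z.2 n (n * ρ))).aemeasurable) (hIn ρ hρ y z)
  -- the bad set of the modulus of continuity
  set S : ℕ → Set X := fun N => ⋃ j ∈ Finset.Ioc m (m + q), ⋃ i ∈ Finset.range N,
    {x | (d : ℝ) / 4 < (β ρ (j, (k : ℝ)) (j, gr k p N (i + 1)) x -
      β ρ (j, (k : ℝ)) (j, gr k p N i) x) -
        (B x j (gr k p N (i + 1)) - B x j (gr k p N i))} with hSdef
  have hSm : ∀ N, NullMeasurableSet (S N) μ := by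
    intro N
    refine Finset.nullMeasurableSet_biUnion _ fun j _ => ?_
    refine Finset.nullMeasurableSet_biUnion _ fun i _ => ?_
    refine nullMeasurableSet_lt aemeasurable_const ?_
    exact ((hβm _ _).sub (hβm _ _)).sub
      ((hSp.mea j _).sub (hSp.mea j _)).aemeasurable
  have hSae : ∀ᵐ x ∂μ, ∀ᶠ N in atTop, x ∉ S N := by
    filter_upwards [hae] with x hx
    have h1 : ∀ j ∈ Finset.Ioc m (m + q), ∀ᶠ N : ℕ in atTop, ∀ i ∈ Finset.range N,
        (fun t : ℝ => β ρ (j, (k : ℝ)) (j, t) x - B x j t) (gr k p N (i + 1)) -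
        (fun t : ℝ => β ρ (j, (k : ℝ)) (j, t) x - B x j t) (gr k p N i) ≤ (d : ℝ) / 4 := by
      intro j _
      refine unif_grid (fun t : ℝ => β ρ (j, (k : ℝ)) (j, t) x - B x j t) ?_ k p _ hd'
      have hc := hx.1 ρ hρ j j
      refine Continuous.sub ?_ (hSp.cts x j)
      exact hc.comp (continuous_const.prodMk continuous_id)
    rw [← Filter.eventually_all_finset] at h1
    filter_upwards [h1] with N hN hmem
    simp only [hSdef, Set.mem_iUnion, Set.mem_ofPred_eq, exists_prop] at hmem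
    obtain ⟨j, hj, i, hi, hlt⟩ := hmem
    have := hN j hj i hi
    linarith
  have hSt := tendsto_of_ae μ S hSm hSae
  -- the final estimate
  rw [ENNReal.tendsto_atTop_zero] at hSt ⊢
  intro ε hε
  have hε2 : 0 < ε / 2 := ENNReal.half_pos hε.ne'
  obtain ⟨N₀, hN₀⟩ := hSt (ε / 2) hε2
  set N := max N₀ 1 with hNdef
  have hN1 : 1 ≤ N := le_max_right _ _
  have hSN : μ (S N) ≤ ε / 2 := hN₀ N (le_max_left _ _)
  set V : ℕ → ℤ → ℕ → Set X := fun n j i => {x | (d : ℝ) / 4 ≤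
    |L (B x) j k n (n * ρ) - L (B x) j (gr k p N i) n (n * ρ) -
      β ρ (j, (k : ℝ)) (j, gr k p N i) x|} with hVdef
  have hVt : ∀ j i, Tendsto (fun n => μ (V n j i)) atTop (𝓝 0) := by
    intro j i
    have h1 := hIn ρ hρ (j, (k : ℝ)) (j, gr k p N i)
    rw [tendstoInMeasure_iff_norm] at h1
    exact h1 _ hd'
  have hsum : Tendsto (fun n => ∑ j ∈ Finset.Ioc m (m + q), ∑ i ∈ Finset.range (N + 1),
      μ (V n j i)) atTop (𝓝 0) := by
    have h1 := tendsto_finsetSum (Finset.Ioc m (m + (q : ℤ))) (fun j _ =>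
      tendsto_finsetSum (Finset.range (N + 1)) (fun i _ => hVt j i))
    simpa using h1
  rw [ENNReal.tendsto_atTop_zero] at hsum
  obtain ⟨n₁, hn₁⟩ := hsum (ε / 2) hε2
  have hρ' : (0 : ℝ) < ρ := by exact_mod_cast hρ
  obtain ⟨n₂, hn₂⟩ := exists_nat_ge (((k : ℝ) + p) / ρ)
  refine ⟨max n₁ (max n₂ (m + q).toNat), fun n hn => ?_⟩
  have hna : n₁ ≤ n := (le_max_left _ _).trans hn
  have hnb : n₂ ≤ n := ((le_max_left _ _).trans (le_max_right _ _)).trans hn
  have hnc : (m + q).toNat ≤ n := ((le_max_right _ _).trans (le_max_right _ _)).trans hn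
  have hmn : m + q ≤ (n : ℤ) := by omega
  have hkp : (k : ℝ) + p ≤ n * ρ := by
    rw [← div_le_iff₀ hρ']
    exact hn₂.trans (by exact_mod_cast hnb)
  have hnull : μ {x | ¬ (Con (fun q y z => β q y z x) ∧ Mon (B x) (fun q y z => β q y z x))} = 0 :=
    ae_iff.1 hae
  have hsub : {x | ¬ Clo (B x) (fun q y z => β q y z x) m k p q ρ d n} ⊆
      {x | ¬ (Con (fun q y z => β q y z x) ∧ Mon (B x) (fun q y z => β q y z x))} ∪
      (S N ∪ ⋃ j ∈ Finset.Ioc m (m + q), ⋃ i ∈ Finset.range (N + 1), V n j i) := by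
    intro x hx
    by_contra hcon
    simp only [Set.mem_union, not_or, Set.mem_ofPred_eq, not_not] at hcon
    obtain ⟨hg, hs, hv⟩ := hcon
    refine hx (det_clo hInc (B x) _ (hSp.cts x) hg.2 m k p q ρ d n N hN1 hρ hmn hkp ?_ ?_)
    · intro j hj i hi hlt
      refine hs ?_
      simp only [hSdef, Set.mem_iUnion, Set.mem_ofPred_eq, exists_prop]
      exact ⟨j, hj, i, hi, hlt⟩
    · intro j hj i hi hlt
      refine hv ?_
      simp only [hVdef, Set.mem_iUnion, Set.mem_ofPred_eq, exists_prop]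
      exact ⟨j, hj, i, hi, hlt⟩
  calc μ {x | ¬ Clo (B x) (fun q y z => β q y z x) m k p q ρ d n}
      ≤ μ ({x | ¬ (Con (fun q y z => β q y z x) ∧ Mon (B x) (fun q y z => β q y z x))} ∪
        (S N ∪ ⋃ j ∈ Finset.Ioc m (m + q), ⋃ i ∈ Finset.range (N + 1), V n j i)) :=
        measure_mono hsub
    _ ≤ 0 + (ε / 2 + ε / 2) := by
        refine (measure_union_le _ _).trans (add_le_add hnull.le ?_)
        refine (measure_union_le _ _).trans (add_le_add hSN ?_)
        refine le_trans ?_ (hn₁ n hna)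
        refine (measure_biUnion_finset_le _ _).trans (Finset.sum_le_sum fun j _ => ?_)
        exact measure_biUnion_finset_le _ _
    _ = ε := by rw [zero_add, ENNReal.add_halves]

end Pool.Agent.BLP.H23
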